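import Mathlib

set_option autoImplicit false

namespace Pool.Agent.Results.MP_e6b4b8_nt.NoRunOfFourteen

/-- Among any fourteen consecutive integers `n, ..., n+13` there is one, `n + j`, with
`25 ∣ (n+j)^2+1`. -/
theorem exists_dvd (n : ℕ) : ∃ j, j < 14 ∧ 25 ∣ (n + j) ^ 2 + 1 := by
  have key : ∀ r : ℕ, r < 25 → ∃ j, j < 14 ∧ ((r + j) ^ 2 + 1) % 25 = 0 := by decide
  obtain ⟨j, hj, h⟩ := key (n % 25) (Nat.mod_lt _ (by norm_num))
  refine ⟨j, hj, ?_⟩
  apply Nat.dvd_of_mod_eq_zero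
  rw [← h]
  have h1 : (n + j) % 25 = (n % 25 + j) % 25 := by omega
  rw [Nat.add_mod, Nat.pow_mod, h1, ← Nat.pow_mod, ← Nat.add_mod]

/-- For every natural `n` and every `k ≥ 14` some `j < k` has `μ((n+j)^2+1) = 0`; hence the
assertion that for every positive integer `k` there are infinitely many natural numbers `n` with
`μ((n+j)^2+1) = 1` for all `0 ≤ j ≤ k-1` is false (`k = 14` has no such `n` at all). -/
theorem result :
    (∀ k : ℕ, 14 ≤ k → ∀ n : ℕ, ∃ j, j < k ∧ ArithmeticFunction.moebius ((n + j) ^ 2 + 1) = 0) ∧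
    ¬ ∀ k : ℕ, 0 < k →
      {n : ℕ | ∀ j, j < k → ArithmeticFunction.moebius ((n + j) ^ 2 + 1) = 1}.Infinite := by
  have h1 : ∀ k : ℕ, 14 ≤ k → ∀ n : ℕ, ∃ j, j < k ∧
      ArithmeticFunction.moebius ((n + j) ^ 2 + 1) = 0 := by
    intro k hk n
    obtain ⟨j, hj, hdvd⟩ := exists_dvd n
    refine ⟨j, by omega, ?_⟩
    apply ArithmeticFunction.moebius_eq_zero_of_not_squarefree
    intro hsq
    have h5 : (5 : ℕ) * 5 ∣ (n + j) ^ 2 + 1 := by simpa using hdvd
    have := hsq 5 h5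
    rw [Nat.isUnit_iff] at this
    omega
  refine ⟨h1, fun h => ?_⟩
  obtain ⟨n, hn⟩ := (h 14 (by norm_num)).nonempty
  obtain ⟨j, hj, h0⟩ := h1 14 le_rfl n
  have := hn j hj
  rw [h0] at this
  exact absurd this (by norm_num)

end Pool.Agent.Results.MP_e6b4b8_nt.NoRunOfFourteen
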